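import Pool.Agent.X196.SQ.Main

/-!
# Solvable quotients of the group of the once-punctured torus of infinite diameter

`FreeGroup (Fin 2)` with basis `a`, `b` is the fundamental group of the once-punctured torus, `a` is
a nonseparating simple closed curve, and by the classification of surfaces every nonseparating
simple closed curve is the image of `a` under a homeomorphism, so that its conjugacy class contains
`φ a` for some automorphism `φ` of the group.

The set `S` of the proof consists of the elements whose path in the grid of `ℤ²` passes every edge
at most once (counted algebraically). The flow of a path depends only on the class modulo the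
second derived subgroup, and `[a, b] ^ k` is no product of fewer than `k` elements of `S`. Every
primitive element has a conjugate in `S`: its Fox derivatives modulo the relation which it
satisfies are, up to a unit of the ring of Laurent polynomials, those of a monotone path.
-/

set_option autoImplicit false

namespace Pool.Agent.Results.MP_4b02fd_al.InfiniteDiameter

/-- There is a generating set `S` of the free group `F` of rank two that contains a conjugate of
`φ a`, for the first generator `a` and every automorphism `φ` of `F`, and such that for every
`n ≥ 2` the quotient of `F` by the `n`-th derived subgroup has infinite diameter with respect to the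
image of `S`: for every `k` there is `g` whose class is not the class of a product of at most `k`
elements of `S` and inverses of elements of `S`. -/
theorem result : ∃ S : Set (FreeGroup (Fin 2)), Subgroup.closure S = ⊤ ∧
    (∀ φ : FreeGroup (Fin 2) ≃* FreeGroup (Fin 2), ∃ s ∈ S, IsConj (φ (FreeGroup.of 0)) s) ∧
    ∀ n, 2 ≤ n → ∀ k : ℕ, ∃ g : FreeGroup (Fin 2), ∀ l : List (FreeGroup (Fin 2)),
      l.length ≤ k → (∀ x ∈ l, x ∈ S ∨ x⁻¹ ∈ S) →
      (QuotientGroup.mk l.prod : FreeGroup (Fin 2) ⧸ derivedSeries (FreeGroup (Fin 2)) n) ≠
        QuotientGroup.mk g :=
  Pool.Agent.X196.SQ.main

end Pool.Agent.Results.MP_4b02fd_al.InfiniteDiameter
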